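import Pool.Agent.H.MP_2f8e94_al.B

namespace Pool.Agent.Results.MP_2f8e94_al.Yes
open Pool.Agent.H.MP_2f8e94_al

theorem result (R A S B : Type) [Ring R] [Finite R] [AddCommGroup A] [Module R A]
    [Ring S] [Finite S] [AddCommGroup B] [Module S B]
    (ι : Type) [Finite ι] (ar : ι → ℕ) (f : ∀ i : ι, (Fin (ar i) → A) → B) :
    FinitelyBased R S f := by
  let _ := Fintype.ofFinite ι
  let _ := Fintype.ofFinite (Al R ar)
  obtain ⟨d, hd⟩ := main2 (R := R) (S := S) f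
  exact ⟨E1 A (d + 9), E2 f S R (d + 9),
    ((fin1 _).prod (fin1 _)).subset fun p hp => ⟨hp.1, hp.2.1⟩,
    ((fin2 _).prod (fin2 _)).subset fun p hp => ⟨hp.1, hp.2.1⟩, fun p hp => hp.2.2,
    fun p hp => hp.2.2, fun s t h => cp1 d s t (main1 d (tm1 d) s t h),
    fun s t h => cp2 f d s t (hd _ _ _ (tm2 f d) s t h)⟩

end Pool.Agent.Results.MP_2f8e94_al.Yes
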